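import Pool.Agent.helper48.EXI.Spec1

/-!
# Block EXI (MP_8f32d0_ag), row DIS: different roots
-/

set_option autoImplicit false

namespace EXI

open scoped Classical
open AN

noncomputable section

/-- cutting with several equations -/
theorem DIS_cut (hCUT : CUT_stmt) (k : Type) [Field k] [IsAlgClosed k] (N : ℕ) (L : List (BB k N)) :
    (∀ l ∈ L, MvPowerSeries.constantCoeff l = 0) → ∀ (q : Ideal (BB k N)) (n : ℕ), q.IsPrime → Cfin k N q n → L.length ≤ n →
      ∃ (q' : Ideal (BB k N)) (n' : ℕ), q'.IsPrime ∧ q ≤ q' ∧ (∀ l ∈ L, l ∈ q') ∧ n ≤ n' + L.length ∧ Cfin k N q' n' := by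
  induction L with
  | nil =>
    intro _ q n hq hc _
    exact ⟨q, n, hq, le_rfl, fun l hl => absurd hl (List.not_mem_nil), by simp, hc⟩
  | cons a L ih =>
    intro hL q n hq hc hn
    rw [List.length_cons] at hn
    obtain ⟨m, rfl⟩ : ∃ m, n = m + 1 := ⟨n - 1, by omega⟩
    obtain ⟨q1, n1, hq1, hle1, ha1, hn1, hc1⟩ := hCUT k N m q hq hc a (hL a (List.mem_cons_self))
    obtain ⟨q', n', hq', hle', hL', hn', hc'⟩ := ih (fun l hl => hL l (List.mem_cons_of_mem a hl)) q1 n1 hq1 hc1 (by omega)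
    refine ⟨q', n', hq', hle1.trans hle', ?_, ?_, hc'⟩
    · intro l hl
      rcases List.mem_cons.1 hl with h | h
      · rw [h]
        exact hle' ha1
      · exact hL' l h
    · rw [List.length_cons]
      omega

theorem DIS_nil (p g : ℕ) {R R' : Type} [CommRing R] [CommRing R'] (hPG : PG_stmt) (hHHV : HHV_stmt) {N : ℕ} (t : Fin N → R)
    (φ : R →+* R') (h : ∀ i j, φ (MN p (HH p g t) g i j) = 0) : MN p (HH p g (fun i => φ (t i))) g = 0 := by
  rw [hHHV.1, hPG.1]
  ext i j
  rw [Matrix.map_apply, h i j]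
  rfl

theorem DIS_third {K : Type} {N : ℕ} (τ : Fin N → K) (i j : Fin N) (hne : ¬ i = j) (hij : τ i = τ j)
    (hodd : Odd (Finset.univ.filter (fun a => τ a = τ i)).card) : ∃ l, l ≠ i ∧ l ≠ j ∧ τ l = τ i := by
  by_contra hno
  push Not at hno
  have e : (Finset.univ.filter (fun a => τ a = τ i)) = {i, j} := by
    ext a
    rw [Finset.mem_filter, Finset.mem_insert, Finset.mem_singleton]
    constructor
    · rintro ⟨-, ha⟩
      by_cases h1 : a = i
      · exact Or.inl h1
      · by_cases h2 : a = j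
        · exact Or.inr h2
        · exact absurd ha (hno a h1 h2)
    · rintro (h1 | h1)
      · rw [h1]
        exact ⟨Finset.mem_univ _, rfl⟩
      · rw [h1]
        exact ⟨Finset.mem_univ _, hij.symm⟩
  rw [e, Finset.card_pair hne] at hodd
  exact absurd hodd (by decide)

theorem DIS (hPL : PL_stmt) (hPG : PG_stmt) (hHHV : HHV_stmt) (hODM : ODM_stmt) (hCLO : CLO_stmt) (hCUT : CUT_stmt) (hPNT : PNT_stmt)
    (hPAI : PAI_stmt) : DIS_stmt := by
  intro p hp g hg hp2
  let k := AlgebraicClosure (ZMod p)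
  have hck : CharP k p := charP_of_injective_algebraMap (algebraMap (ZMod p) k).injective p
  let X : Fin (2 * g + 1) → BB k (2 * g + 1) := fun i => MvPowerSeries.X i
  have hX0 : ∀ i, MvPowerSeries.constantCoeff (X i) = 0 := fun i => MvPowerSeries.constantCoeff_X i
  have hnil : PNil p ((HH p g X).map (MvPowerSeries.constantCoeff (σ := Fin (2 * g + 1)) (R := k))) := by
    rw [← hHHV.1]
    have e : (fun i => MvPowerSeries.constantCoeff (X i)) = fun _ : Fin (2 * g + 1) => (0 : k) := funext hX0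
    rw [e]
    exact hCLO p g k hp2
  obtain ⟨q, n, hq, hNn, hc, hMN⟩ := hPL p k (2 * g + 1) g (HH p g X) hnil
  -- the generic point
  let D := BB k (2 * g + 1) ⧸ q
  have hD : IsDomain D := Ideal.Quotient.isDomain q
  let K₀ := FractionRing D
  let ψ : BB k (2 * g + 1) →+* K₀ := (algebraMap D K₀).comp (Ideal.Quotient.mk q)
  have hψ : ∀ b, ψ b = 0 ↔ b ∈ q := by
    intro b
    show algebraMap D K₀ (Ideal.Quotient.mk q b) = 0 ↔ b ∈ q
    rw [map_eq_zero_iff _ (IsFractionRing.injective D K₀), Ideal.Quotient.eq_zero_iff_mem]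
  have hcK : CharP K₀ p := charP_of_injective_ringHom (ψ.comp (MvPowerSeries.C (σ := Fin (2 * g + 1)) (R := k))).injective p
  have hMN0 : MN p (HH p g (fun i => ψ (X i))) g = 0 := DIS_nil p g hPG hHHV X ψ fun i j => (hψ _).2 (hMN i j)
  have hinj : Function.Injective fun i => ψ (X i) := by
    intro i j hij
    by_contra hne
    have hij' : ψ (X i) = ψ (X j) := hij
    -- a third index
    have hodd := hODM p g K₀ (fun i => ψ (X i)) hp2 hMN0 (ψ (X i)) ⟨i, rfl⟩
    obtain ⟨l, hli, hlj, hl⟩ : ∃ l, l ≠ i ∧ l ≠ j ∧ ψ (X l) = ψ (X i) := by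
      exact DIS_third (fun a => ψ (X a)) i j hne hij' hodd
    obtain ⟨e, he⟩ := hPAI g hg i j l hne (fun h => hli h.symm) (fun h => hlj h.symm)
    let f : Fin g → BB k (2 * g + 1) := fun m => if (m : ℕ) = 0 then X (e m).1 else X (e m).1 - X (e m).2
    have hf0 : ∀ l ∈ List.ofFn f, MvPowerSeries.constantCoeff l = 0 := by
      intro l hl
      rw [List.mem_ofFn] at hl
      obtain ⟨m, rfl⟩ := hl
      show MvPowerSeries.constantCoeff (if (m : ℕ) = 0 then X (e m).1 else X (e m).1 - X (e m).2) = 0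
      split_ifs
      · exact hX0 _
      · rw [map_sub, hX0, hX0, sub_zero]
    obtain ⟨q', n', hq', hle, hL, hn', hc'⟩ := DIS_cut hCUT k (2 * g + 1) (List.ofFn f) hf0 q n hq hc (by rw [List.length_ofFn]; omega)
    rw [List.length_ofFn] at hn'
    obtain ⟨n'', rfl⟩ : ∃ n'', n' = n'' + 1 := ⟨n' - 1, by omega⟩
    obtain ⟨Φ, hΦ, a, ha⟩ := hPNT k (2 * g + 1) n'' q' hq' hc'
    let F := FractionRing (PowerSeries k)
    let χ : BB k (2 * g + 1) →+* F := (algebraMap (PowerSeries k) F).comp Φ.toRingHom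
    have hcF : CharP F p := charP_of_injective_ringHom (χ.comp (MvPowerSeries.C (σ := Fin (2 * g + 1)) (R := k))).injective p
    have hχ : ∀ b ∈ q', χ b = 0 := by
      intro b hb
      show algebraMap (PowerSeries k) F (Φ b) = 0
      rw [hΦ b hb, map_zero]
    have hMNF : MN p (HH p g (fun i => χ (X i))) g = 0 := DIS_nil p g hPG hHHV X χ fun i j => hχ _ (hle (hMN i j))
    have hodd2 := hODM p g F (fun i => χ (X i)) hp2 hMNF (χ (X a)) ⟨a, rfl⟩
    have heq : ∀ u v, ψ (X u) = ψ (X v) → χ (X u) = χ (X v) := by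
      intro u v huv
      rw [← sub_eq_zero, ← map_sub]
      refine hχ _ (hle ((hψ _).1 ?_))
      rw [map_sub, huv, sub_self]
    have hmem : ∀ m, f m ∈ q' := fun m => hL _ ((List.mem_ofFn).2 ⟨m, rfl⟩)
    have heven := he F 0 (fun i => χ (X i)) (heq i j hij') (heq i l hl.symm) (fun m hm => by
      have h1 := hmem m
      have h2 : f m = X (e m).1 := if_pos hm
      rw [h2] at h1
      exact hχ _ h1) (fun m hm => by
      have h1 := hmem m
      have h2 : f m = X (e m).1 - X (e m).2 := if_neg hm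
      rw [h2] at h1
      have h3 := hχ _ h1
      rw [map_sub] at h3
      exact sub_eq_zero.1 h3) (χ (X a)) (by
      show algebraMap (PowerSeries k) F (Φ (X a)) ≠ 0
      rw [Ne, map_eq_zero_iff _ (IsFractionRing.injective (PowerSeries k) F)]
      exact ha)
    exact (Nat.not_even_iff_odd.2 hodd2) heven
  refine ⟨AlgebraicClosure K₀, inferInstance, inferInstance, charP_of_injective_algebraMap (algebraMap K₀ (AlgebraicClosure K₀)).injective p,
    fun i => algebraMap K₀ (AlgebraicClosure K₀) (ψ (X i)), ?_, ?_⟩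
  · intro i j hij
    exact hinj ((algebraMap K₀ (AlgebraicClosure K₀)).injective hij)
  · refine DIS_nil p g hPG hHHV (fun i => ψ (X i)) (algebraMap K₀ (AlgebraicClosure K₀)) fun i j => ?_
    rw [hMN0, Matrix.zero_apply, map_zero]

end

end EXI
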